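import Pool.Agent.U136.DS.Stm
import Pool.Agent.N983.RT.BCD

set_option autoImplicit false

/-! Project DS: almost surely every wave vector is in few near-resonant triads. -/

namespace Pool.Agent.U136.DS

open MeasureTheory ProbabilityTheory Pool.Agent.N983.RT

lemma deg_cub_mono {R R' : ℕ} (h : R ≤ R') : cub R ⊆ cub R' := by
  intro k hk
  unfold cub at hk ⊢
  rw [Fintype.mem_piFinset] at hk ⊢
  intro j
  have := hk j
  rw [Finset.mem_Icc] at this ⊢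
  have h' : (R : ℤ) ≤ (R' : ℤ) := by exact_mod_cast h
  exact ⟨by linarith [this.1], by linarith [this.2]⟩

lemma deg_near_zero (lam : Wv → ℝ) (c₁ τ : ℝ) (k l : Wv) : near lam c₁ τ k l 0 = 0 := by
  unfold near
  rw [if_neg]
  rintro ⟨-, -, h, -⟩
  exact h rfl

/-- the number of the events -/
noncomputable def deg_s (C θ : ℝ) (c : ℕ) : ℕ :=
  ⌈10 * (C * ((2 ^ c : ℕ) : ℝ) ^ θ)⌉₊ + 40 * (c + 2)

open Classical in
/-- the exceptional events -/
def deg_E {Ω : Type} (lam : Ω → Wv → ℝ) (τ C θ : ℝ) (c : ℕ) : Set Ω :=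
  ⋃ m ∈ (cub (2 ^ c)).filter (fun m => m ≠ 0),
    {ω | 9 * deg_s C θ c + 9 ≤
      ((cub (2 ^ c)).filter fun k => near (lam ω) 1 τ k (-(k + m)) m ≠ 0).card}

/-- growth of `deg_s` -/
lemma deg_growth (C θ' θ : ℝ) (hC : 0 ≤ C) (h1 : θ' ≤ θ) (h0 : 0 < θ) :
    ∃ D : ℝ, 0 ≤ D ∧ ∀ c : ℕ, 9 * (deg_s C θ' c : ℝ) + 9 ≤ D * ((2 : ℝ) ^ c) ^ θ := by
  have hl2 : 0 < Real.log 2 := Real.log_pos (by norm_num)
  have hτ : 0 < θ * Real.log 2 := by positivity
  refine ⟨9 * (10 * C + 1 + 40 * (2 + 1 / (θ * Real.log 2))) + 9, by positivity, fun c => ?_⟩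
  have hc1 : (1 : ℝ) ≤ (2 : ℝ) ^ c := one_le_pow₀ (by norm_num)
  set P : ℝ := ((2 : ℝ) ^ c) ^ θ with hP
  have hP1 : 1 ≤ P := Real.one_le_rpow hc1 h0.le
  have hP2 : (c : ℝ) * (θ * Real.log 2) ≤ P := by
    have e : P = Real.exp (c * (θ * Real.log 2)) := by
      rw [hP, Real.rpow_def_of_pos (by positivity), Real.log_pow]
      congr 1; ring
    rw [e]
    linarith [Real.add_one_le_exp ((c : ℝ) * (θ * Real.log 2))]
  have hP3 : (c : ℝ) ≤ 1 / (θ * Real.log 2) * P := by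
    rw [one_div, inv_mul_eq_div, le_div_iff₀ hτ]
    exact hP2
  have hP4 : ((2 ^ c : ℕ) : ℝ) ^ θ' ≤ P := by
    have e1 : ((2 ^ c : ℕ) : ℝ) = (2 : ℝ) ^ c := by push_cast; ring
    rw [e1]
    exact Real.rpow_le_rpow_of_exponent_le hc1 h1
  have hs : (deg_s C θ' c : ℝ) ≤ 10 * (C * ((2 ^ c : ℕ) : ℝ) ^ θ') + 1 + 40 * ((c : ℝ) + 2) := by
    unfold deg_s
    have := (Nat.ceil_lt_add_one (show 0 ≤ 10 * (C * ((2 ^ c : ℕ) : ℝ) ^ θ') by
      positivity)).le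
    push_cast at this ⊢
    linarith
  have hCP : C * ((2 ^ c : ℕ) : ℝ) ^ θ' ≤ C * P :=
    mul_le_mul_of_nonneg_left hP4 hC
  have hfin : (deg_s C θ' c : ℝ) ≤ (10 * C + 1 + 40 * (2 + 1 / (θ * Real.log 2))) * P := by
    nlinarith
  nlinarith

lemma deg_sum (hI : S_IND2) (hPr : S_PRB) (hE : S_ESY) (hT : S_TLD) (D σ τ θ' C : ℝ)
    (hD : 0 ≤ D) (hσ : 0 < σ) (hτ : 0 < τ) (hτσ : τ < σ)
    (hL : ∀ R : ℕ, 1 ≤ R →
      ∑ k ∈ cub R, 2 * D * 2 ^ σ * (if k = 0 then 0 else nsq k ^ ((τ - σ) / 2)) ≤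
        C * (R : ℝ) ^ θ')
    {Ω : Type} [MeasurableSpace Ω] (μ : Measure Ω) [IsProbabilityMeasure μ]
    (Z : Sym2 Wv → Ω → ℝ) (e : Wv → ℝ) (hZ : ∀ c, Measurable (Z c)) (hi : iIndepFun Z μ)
    (he : Sgn e) (hd : Dens μ Z D) (c : ℕ) :
    μ (deg_E (rlam σ e Z) τ C θ' c) ≤ ENNReal.ofReal ((1 / 2 : ℝ) ^ c) := by
  classical
  have hnn : ∀ k : Wv, 0 ≤ nsq k := fun k => by unfold nsq; positivity
  have hR1 : 1 ≤ 2 ^ c := Nat.one_le_two_pow
  have hone : ∀ m ∈ (cub (2 ^ c)).filter (fun m => m ≠ 0),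
      μ {ω | 9 * deg_s C θ' c + 9 ≤
        ((cub (2 ^ c)).filter fun k => near (rlam σ e Z ω) 1 τ k (-(k + m)) m ≠ 0).card} ≤
        ENNReal.ofReal ((1 / 2 : ℝ) ^ (40 * (c + 2))) := by
    intro m hm
    rw [Finset.mem_filter] at hm
    have h := hT hI hPr hE D σ τ hD hσ hτ hτσ Ω μ Z e hZ hi he hd (2 ^ c) m hm.2 (deg_s C θ' c)
    refine le_trans (le_of_eq ?_) (h.trans ?_)
    · congr!
    apply ENNReal.ofReal_le_ofReal
    have h6 := hL (2 ^ c) hR1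
    have h7 : 0 ≤ ∑ k ∈ cub (2 ^ c), 2 * D * 2 ^ σ *
        (if k = 0 then 0 else nsq k ^ ((τ - σ) / 2)) := by
      refine Finset.sum_nonneg fun k _ => ?_
      have : (0 : ℝ) ≤ (if k = 0 then 0 else nsq k ^ ((τ - σ) / 2)) := by
        split_ifs
        · exact le_rfl
        · exact Real.rpow_nonneg (hnn k) _
      positivity
    refine bcd_tail _ h7 _ _ ?_ ?_
    · calc 10 * ∑ k ∈ cub (2 ^ c), 2 * D * 2 ^ σ *
            (if k = 0 then 0 else nsq k ^ ((τ - σ) / 2))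
          ≤ 10 * (C * ((2 ^ c : ℕ) : ℝ) ^ θ') := by linarith
        _ ≤ (⌈10 * (C * ((2 ^ c : ℕ) : ℝ) ^ θ')⌉₊ : ℝ) := Nat.le_ceil _
        _ ≤ ((deg_s C θ' c : ℕ) : ℝ) := by
            unfold deg_s
            exact_mod_cast Nat.le_add_right _ _
    · unfold deg_s
      exact Nat.le_add_left _ _
  calc μ (deg_E (rlam σ e Z) τ C θ' c)
      ≤ ∑ m ∈ (cub (2 ^ c)).filter (fun m => m ≠ 0),
        μ {ω | 9 * deg_s C θ' c + 9 ≤
        ((cub (2 ^ c)).filter fun k => near (rlam σ e Z ω) 1 τ k (-(k + m)) m ≠ 0).card} := by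
        unfold deg_E
        refine le_trans (measure_biUnion_finset_le _ _) (le_of_eq ?_)
        congr!
    _ ≤ ∑ _m ∈ (cub (2 ^ c)).filter (fun m => m ≠ 0),
        ENNReal.ofReal ((1 / 2 : ℝ) ^ (40 * (c + 2))) := Finset.sum_le_sum hone
    _ = (((cub (2 ^ c)).filter (fun m => m ≠ 0)).card : ENNReal) *
        ENNReal.ofReal ((1 / 2 : ℝ) ^ (40 * (c + 2))) := by
        rw [Finset.sum_const, nsmul_eq_mul]
    _ ≤ ((2 ^ (3 * c + 9) : ℕ) : ENNReal) *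
        ENNReal.ofReal ((1 / 2 : ℝ) ^ (40 * (c + 2))) := by
        refine mul_le_mul_left ?_ _
        have : ((cub (2 ^ c)).filter (fun m => m ≠ 0)).card ≤ 2 ^ (3 * c + 9) := by
          refine (Finset.card_filter_le _ _).trans ?_
          refine le_trans ?_ (bcd_card_le c)
          exact bcd_mono (Nat.pow_le_pow_right (by norm_num) (Nat.le_succ c))
        exact_mod_cast this
    _ = ENNReal.ofReal (((2 ^ (3 * c + 9) : ℕ) : ℝ) *
        (1 / 2 : ℝ) ^ (40 * (c + 2))) := by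
        rw [ENNReal.ofReal_mul (by positivity), ENNReal.ofReal_natCast]
    _ ≤ ENNReal.ofReal ((1 / 2 : ℝ) ^ c) := by
        apply ENNReal.ofReal_le_ofReal
        push_cast
        have e1 : (2 : ℝ) ^ (3 * c + 9) * (1 / 2 : ℝ) ^ (3 * c + 9) = 1 := by
          rw [← mul_pow]; norm_num
        have e2 : (1 / 2 : ℝ) ^ (40 * (c + 2)) =
            (1 / 2 : ℝ) ^ (3 * c + 9) * (1 / 2 : ℝ) ^ (37 * c + 71) := by
          rw [← pow_add]; congr 1; ring
        rw [e2]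
        calc (2 : ℝ) ^ (3 * c + 9) *
              ((1 / 2 : ℝ) ^ (3 * c + 9) * (1 / 2 : ℝ) ^ (37 * c + 71))
            = ((2 : ℝ) ^ (3 * c + 9) * (1 / 2 : ℝ) ^ (3 * c + 9)) *
              (1 / 2 : ℝ) ^ (37 * c + 71) := by ring
          _ = (1 / 2 : ℝ) ^ (37 * c + 71) := by rw [e1]; ring
          _ ≤ (1 / 2 : ℝ) ^ c := pow_le_pow_of_le_one (by norm_num) (by norm_num) (by omega)

theorem t_DEG : S_DEG := by
  classical
  intro hI hPr hE hL hT D σ τ θ hD hσ hτ hτσ hθ hθ2 Ω _ μ _ Z e hZ hi he hd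
  -- the exponents
  set b : ℝ := σ - τ with hb
  have hb0 : 0 < b := by simp only [hb]; linarith
  set θ' : ℝ := (max 0 (3 - b) + θ) / 2 with hθ'
  have hmx : max 0 (3 - b) < θ := max_lt hθ (by simp only [hb]; linarith)
  have hm0 : 0 ≤ max 0 (3 - b) := le_max_left _ _
  have hm1 : 3 - b ≤ max 0 (3 - b) := le_max_right _ _
  have h1 : 0 < θ' := by simp only [hθ']; linarith
  have h2 : 3 - b < θ' := by simp only [hθ']; linarith
  have h3 : θ' < θ := by simp only [hθ']; linarith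
  obtain ⟨C₀, hC₀, hLC⟩ := hL b θ' hb0 h1 h2
  set C : ℝ := 2 * D * 2 ^ σ * C₀ with hCdef
  have hC : 0 ≤ C := by positivity
  have hLC' : ∀ R : ℕ, 1 ≤ R →
      ∑ k ∈ cub R, 2 * D * 2 ^ σ * (if k = 0 then 0 else nsq k ^ ((τ - σ) / 2)) ≤
        C * (R : ℝ) ^ θ' := by
    intro R hR
    rw [← Finset.mul_sum]
    have hx := hLC R hR
    have e1 : -b / 2 = (τ - σ) / 2 := by simp only [hb]; ring
    rw [e1] at hx
    calc 2 * D * 2 ^ σ * ∑ k ∈ cub R, (if k = 0 then 0 else nsq k ^ ((τ - σ) / 2))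
        ≤ 2 * D * 2 ^ σ * (C₀ * (R : ℝ) ^ θ') := mul_le_mul_of_nonneg_left hx (by positivity)
      _ = C * (R : ℝ) ^ θ' := by rw [hCdef]; ring
  -- Borel-Cantelli
  have hsum : (∑' c, μ (deg_E (rlam σ e Z) τ C θ' c)) ≠ ⊤ := by
    have hle : (∑' c, μ (deg_E (rlam σ e Z) τ C θ' c)) ≤
        ∑' c : ℕ, ENNReal.ofReal ((1 / 2 : ℝ) ^ c) :=
      ENNReal.tsum_le_tsum fun c =>
        deg_sum hI hPr hE hT D σ τ θ' C hD hσ hτ hτσ hLC' μ Z e hZ hi he hd c
    refine ne_top_of_le_ne_top ?_ hle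
    rw [← ENNReal.ofReal_tsum_of_nonneg (fun n => by positivity)
      (summable_geometric_of_lt_one (by norm_num) (by norm_num))]
    exact ENNReal.ofReal_ne_top
  filter_upwards [ae_eventually_notMem hsum] with ω hω
  obtain ⟨c₀, hc₀⟩ := Filter.eventually_atTop.1 hω
  obtain ⟨B₁, hB₁, hgr⟩ := deg_growth C θ' θ hC h3.le hθ
  refine ⟨B₁ * 2 ^ θ + ((cub (2 ^ c₀)).card : ℝ), ?_⟩
  intro R hR m hm
  have hR1 : (1 : ℝ) ≤ (R : ℝ) := by exact_mod_cast hR
  have hRθ : 1 ≤ (R : ℝ) ^ θ := Real.one_le_rpow hR1 hθ.le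
  by_cases hm0 : m = 0
  · subst hm0
    have : ((cub R).filter fun k => near (rlam σ e Z ω) 1 τ k (-(k + 0)) 0 ≠ 0) = ∅ := by
      rw [Finset.filter_eq_empty_iff]
      intro k _
      rw [deg_near_zero]
      simp
    refine le_trans (le_of_eq (b := (0 : ℝ)) ?_) (by positivity)
    rw [Nat.cast_eq_zero, Finset.card_eq_zero, Finset.filter_eq_empty_iff]
    intro k _
    rw [deg_near_zero]
    simp
  -- the dyadic scale
  obtain ⟨c, hc1, hc2⟩ : ∃ c : ℕ, R ≤ 2 ^ c ∧ 2 ^ c ≤ 2 * R := by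
    refine ⟨Nat.clog 2 R, Nat.le_pow_clog (by norm_num) R, ?_⟩
    rcases Nat.lt_or_ge 1 R with h | h
    · have hpos : 0 < Nat.clog 2 R := Nat.clog_pos (by norm_num) h
      have hlt : 2 ^ (Nat.clog 2 R).pred < R := Nat.pow_pred_clog_lt_self (by norm_num) h
      have e : 2 ^ Nat.clog 2 R = 2 * 2 ^ (Nat.clog 2 R).pred := by
        conv_lhs => rw [← Nat.succ_pred_eq_of_pos hpos]
        rw [pow_succ]; ring
      rw [e]
      omega
    · have : R = 1 := le_antisymm h hR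
      subst this
      simp
  have hsub : cub R ⊆ cub (2 ^ c) := deg_cub_mono hc1
  have hmc : m ∈ cub (2 ^ c) := hsub hm
  have hcard : ((cub R).filter fun k => near (rlam σ e Z ω) 1 τ k (-(k + m)) m ≠ 0).card ≤
      ((cub (2 ^ c)).filter fun k => near (rlam σ e Z ω) 1 τ k (-(k + m)) m ≠ 0).card :=
    Finset.card_le_card (Finset.filter_subset_filter _ hsub)
  have hgoal : (((cub R).filter fun k => near (rlam σ e Z ω) 1 τ k (-(k + m)) m ≠ 0).card : ℝ) ≤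
      (B₁ * 2 ^ θ + ((cub (2 ^ c₀)).card : ℝ)) * (R : ℝ) ^ θ := by
    by_cases hcc : c₀ ≤ c
    · have hn := hc₀ c hcc
      have hlt : ((cub (2 ^ c)).filter fun k =>
          near (rlam σ e Z ω) 1 τ k (-(k + m)) m ≠ 0).card < 9 * deg_s C θ' c + 9 := by
        by_contra hlt
        apply hn
        unfold deg_E
        simp only [Set.mem_iUnion]
        refine ⟨m, ?_, ?_⟩
        · rw [Finset.mem_filter]
          exact ⟨hmc, hm0⟩
        · rw [Set.mem_ofPred_eq]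
          refine le_trans (not_lt.1 hlt) (le_of_eq ?_)
          congr!
      have hlt2 : (((cub R).filter fun k =>
          near (rlam σ e Z ω) 1 τ k (-(k + m)) m ≠ 0).card : ℝ) ≤ 9 * (deg_s C θ' c : ℝ) + 9 := by
        have := (hcard.trans hlt.le)
        exact_mod_cast this
      have hpow : ((2 : ℝ) ^ c) ^ θ ≤ 2 ^ θ * (R : ℝ) ^ θ := by
        rw [← Real.mul_rpow (by norm_num) (by positivity)]
        refine Real.rpow_le_rpow (by positivity) ?_ hθ.le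
        exact_mod_cast hc2
      calc (((cub R).filter fun k =>
          near (rlam σ e Z ω) 1 τ k (-(k + m)) m ≠ 0).card : ℝ) ≤ 9 * (deg_s C θ' c : ℝ) + 9 := hlt2
        _ ≤ B₁ * ((2 : ℝ) ^ c) ^ θ := hgr c
        _ ≤ B₁ * (2 ^ θ * (R : ℝ) ^ θ) := mul_le_mul_of_nonneg_left hpow hB₁
        _ ≤ (B₁ * 2 ^ θ + ((cub (2 ^ c₀)).card : ℝ)) * (R : ℝ) ^ θ := by
            have : 0 ≤ ((cub (2 ^ c₀)).card : ℝ) * (R : ℝ) ^ θ := by positivity
            nlinarith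
    · have hle : (((cub R).filter fun k =>
          near (rlam σ e Z ω) 1 τ k (-(k + m)) m ≠ 0).card : ℝ) ≤ ((cub (2 ^ c₀)).card : ℝ) := by
        have h4 : ((cub R).filter fun k =>
          near (rlam σ e Z ω) 1 τ k (-(k + m)) m ≠ 0).card ≤ (cub (2 ^ c₀)).card := by
          refine (Finset.card_filter_le _ _).trans (bcd_mono ?_)
          exact hc1.trans (Nat.pow_le_pow_right (by norm_num) (by omega))
        exact_mod_cast h4
      have hnn2 : 0 ≤ B₁ * 2 ^ θ * (R : ℝ) ^ θ := by positivity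
      have hcc3 : (0 : ℝ) ≤ ((cub (2 ^ c₀)).card : ℝ) := by positivity
      nlinarith
  convert hgoal

end Pool.Agent.U136.DS
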